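import Pool.Agent.Q204.DS.NNO

set_option autoImplicit false

/-!
# The constant objects functor into the `D_st`-topos
-/

namespace Pool.Agent.Results.MP_3e25b1_lc.ConstantObjects

open Q204.DS

/-- The constant objects functor into the `D_st`-topos does not preserve first-order logic: for
every structure `M` with at least two elements the formula `∀ x₀ (x₀ = x₁ ∨ ¬ x₀ = x₁)` is true in
`M`, but its interpretation over `∇M` is false at every assignment. This holds both for the usual
constant objects functor (`IsImage`) and if subsets are literally interpreted by the predicates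
which are `⊤` on the subset and `⊥` outside (`IsLit`); in the second reading the equality predicate
on a set with two elements is not even transitive. Moreover `∇ℕ` is not a natural numbers object. -/
theorem result :
    ¬ PreservesAndReflects IsImage ∧ ¬ PreservesAndReflects IsLit ∧
    (∀ (L : FirstOrder.Language.{0, 0}) (M : Type) [L.Structure M] [Nontrivial M],
      ∀ At : ∀ I : Type, Set I → (I → Sst) → Prop, (At = IsImage ∨ At = IsLit) →
        (∃ P, Interp At M (dec L) P) ∧
        ∀ P, Interp At M (dec L) P → ∀ v, Sat M (dec L) v ∧ ¬ Holds P v) ∧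
    (∀ X : Type, Nontrivial X → ∀ E : X × X → Sst,
      IsLit (X × X) {p | p.1 = p.2} E → ¬ IsObj E) ∧
    (∀ X : Type, IsObj (nabla X) ∧ IsImage (X × X) {p | p.1 = p.2} (nabla X)) ∧
    ¬ IsNNO (nabla ℕ) (nablaMap (fun _ : Unit => 0)) (nablaMap Nat.succ) := by
  have key : ∀ (L : FirstOrder.Language.{0, 0}) (M : Type) [L.Structure M] [Nontrivial M],
      ∀ At : ∀ I : Type, Set I → (I → Sst) → Prop, (At = IsImage ∨ At = IsLit) →
        (∃ P, Interp At M (dec L) P) ∧
        ∀ P, Interp At M (dec L) P → ∀ v, Sat M (dec L) v ∧ ¬ Holds P v := by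
    intro L M _ _ At hAt
    rcases hAt with rfl | rfl
    · exact ⟨⟨_, dec_image.1⟩, fun P hP v => ⟨sat_dec M v, not_holds (dec_image.2 P hP) v⟩⟩
    · exact ⟨⟨_, dec_lit.1⟩, fun P hP v => ⟨sat_dec M v, not_holds (dec_lit.2 P hP) v⟩⟩
  have key2 : ∀ At : ∀ I : Type, Set I → (I → Sst) → Prop, (At = IsImage ∨ At = IsLit) →
      ¬ PreservesAndReflects At := by
    intro At hAt h
    let _ : (FirstOrder.Language.empty).Structure Bool := FirstOrder.Language.emptyStructure
    obtain ⟨⟨P, hP⟩, h2⟩ := key FirstOrder.Language.empty Bool At hAt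
    obtain ⟨h3, h4⟩ := h2 P hP (fun _ => true)
    exact h4 ((h FirstOrder.Language.empty Bool _ P hP _).1 h3)
  refine ⟨key2 _ (Or.inl rfl), key2 _ (Or.inr rfl), key, ?_, ?_, not_nno⟩
  · intro X _ E hE hobj
    have hE' : E = fun p => chi (p.1 = p.2) := by
      funext p
      by_cases hp : p.1 = p.2
      · rw [(hE p).1 hp, chi_true hp]
      · rw [(hE p).2 hp, chi_false hp]
    apply lit_not_trans (X := X)
    intro C h1 h2
    have h3 := hobj.trans C
    rw [hE'] at h3
    exact h3 h1 h2
  · exact fun X => ⟨isObj_nabla X, nabla_image X⟩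

end Pool.Agent.Results.MP_3e25b1_lc.ConstantObjects
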